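import Mathlib

set_option autoImplicit false

namespace Pool.Agent.Results.MP_f3b8e9_an.ConvexClosureFails

open Filter Topology

/-- A continuous function on `Ω`, extended by zero to the whole plane. -/
noncomputable def ext {Ω : Set ℂ} (f : C(Ω, ℂ)) (z : ℂ) : ℂ :=
  open Classical in if h : z ∈ Ω then f ⟨z, h⟩ else 0

lemma ext_of_mem {Ω : Set ℂ} (f : C(Ω, ℂ)) {z : ℂ} (h : z ∈ Ω) : ext f z = f ⟨z, h⟩ := by
  simp [ext, h]

lemma ext_add {Ω : Set ℂ} (f g : C(Ω, ℂ)) : ext (f + g) = ext f + ext g := by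
  funext z
  by_cases h : z ∈ Ω <;> simp [ext, h]

lemma ext_mul {Ω : Set ℂ} (f g : C(Ω, ℂ)) : ext (f * g) = ext f * ext g := by
  funext z
  by_cases h : z ∈ Ω <;> simp [ext, h]

lemma ext_smul {Ω : Set ℂ} (c : ℂ) (f : C(Ω, ℂ)) : ext (c • f) = c • ext f := by
  funext z
  by_cases h : z ∈ Ω <;> simp [ext, h]

lemma ext_zero {Ω : Set ℂ} : ext (0 : C(Ω, ℂ)) = 0 := by
  funext z
  by_cases h : z ∈ Ω <;> simp [ext, h]

/-- The functions analytic in `Ω`, as a linear subspace of `C(Ω, ℂ)`. -/
def analyticSub (Ω : Set ℂ) : Submodule ℂ C(Ω, ℂ) where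
  carrier := {f | DifferentiableOn ℂ (ext f) Ω}
  add_mem' := by
    intro f g hf hg
    change DifferentiableOn ℂ (ext (f + g)) Ω
    rw [ext_add]
    exact DifferentiableOn.add hf hg
  zero_mem' := by
    change DifferentiableOn ℂ (ext (0 : C(Ω, ℂ))) Ω
    rw [ext_zero]
    exact differentiableOn_const 0
  smul_mem' := by
    intro c f hf
    change DifferentiableOn ℂ (ext (c • f)) Ω
    rw [ext_smul]
    exact DifferentiableOn.const_smul hf c

/-- The space `A(Ω)` of functions analytic in `Ω`. -/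
def A (Ω : Set ℂ) : Type := ↥(analyticSub Ω)

noncomputable instance (Ω : Set ℂ) : AddCommGroup (A Ω) :=
  inferInstanceAs (AddCommGroup ↥(analyticSub Ω))

noncomputable instance (Ω : Set ℂ) : Module ℂ (A Ω) :=
  inferInstanceAs (Module ℂ ↥(analyticSub Ω))

/-- The topology of `A(Ω)`: uniform convergence on compact subsets of `Ω`, that is the topology
induced from `C(Ω, ℂ)` with its compact-open topology. -/
instance (Ω : Set ℂ) : TopologicalSpace (A Ω) :=
  inferInstanceAs (TopologicalSpace ↥(analyticSub Ω))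

/-- Pointwise multiplication of two functions of `A(Ω)`. -/
noncomputable def mulA {Ω : Set ℂ} (a f : A Ω) : A Ω :=
  ⟨a.1 * f.1, by
    change DifferentiableOn ℂ (ext (a.1 * f.1)) Ω
    rw [ext_mul]
    exact DifferentiableOn.mul a.2 f.2⟩

/-- The derivation `d/dz` on `A(Ω)`, for `Ω` open. -/
noncomputable def D {Ω : Set ℂ} (hΩ : IsOpen Ω) (f : A Ω) : A Ω :=
  ⟨⟨fun z => deriv (ext f.1) z,
      continuousOn_iff_continuous_domRestrict.mp
        (DifferentiableOn.deriv f.2 hΩ).continuousOn⟩, by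
    refine (DifferentiableOn.deriv f.2 hΩ).congr ?_
    intro z hz
    rw [ext_of_mem _ hz]
    rfl⟩

/-- The differential polynomial `ℓ = D^n + a_{n-2} D^{n-2} + ... + a_0` acting on `A(Ω)`. -/
noncomputable def ell {Ω : Set ℂ} (hΩ : IsOpen Ω) (n : ℕ) (a : Fin (n - 1) → A Ω)
    (f : A Ω) : A Ω :=
  (D hΩ)^[n] f + ∑ j : Fin (n - 1), mulA (a j) ((D hΩ)^[(j : ℕ)] f)

/-- `f` is a root vector of the operator `𝓛 f = ℓ f` with domain
`{f | φ k f = 0 for all k}`: `f` is nonzero, lies in the domain of `𝓛 ^ m`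
(that is `φ k (ℓ ^ j f) = 0` for all `j < m`), and `(𝓛 - lam) ^ m f = 0`. -/
def IsRootVector {Ω : Set ℂ} (hΩ : IsOpen Ω) (n : ℕ) (a : Fin (n - 1) → A Ω)
    (φ : Fin n → (A Ω →L[ℂ] ℂ)) (f : A Ω) : Prop :=
  f ≠ 0 ∧ ∃ (lam : ℂ) (m : ℕ), 1 ≤ m ∧ (∀ j < m, ∀ k, φ k ((ell hΩ n a)^[j] f) = 0) ∧
    (fun g => ell hΩ n a g - lam • g)^[m] f = 0

/-- The closure in `A(Ω)` of the linear span of all root vectors. -/
def Cl {Ω : Set ℂ} (hΩ : IsOpen Ω) (n : ℕ) (a : Fin (n - 1) → A Ω)
    (φ : Fin n → (A Ω →L[ℂ] ℂ)) : Set (A Ω) :=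
  closure (Submodule.span ℂ {f : A Ω | IsRootVector hΩ n a φ f} : Set (A Ω))

/-- The common domain of all powers of `𝓛`. -/
def DInfty {Ω : Set ℂ} (hΩ : IsOpen Ω) (n : ℕ) (a : Fin (n - 1) → A Ω)
    (φ : Fin n → (A Ω →L[ℂ] ℂ)) : Set (A Ω) :=
  {f : A Ω | ∀ (q : ℕ) (k : Fin n), φ k ((ell hΩ n a)^[q] f) = 0}

/-- `Δ` is not identically zero: for some `lam`, the solutions `y_k` of `ℓ y = lam y` with
`y_k^{(p)}(0) = δ_{kp}` have `det (φ_j (y_k)) ≠ 0`. -/
def DeltaNeZero {Ω : Set ℂ} (hΩ : IsOpen Ω) (h0 : (0 : ℂ) ∈ Ω) (n : ℕ)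
    (a : Fin (n - 1) → A Ω) (φ : Fin n → (A Ω →L[ℂ] ℂ)) : Prop :=
  ∃ (lam : ℂ) (y : Fin n → A Ω), (∀ k, ell hΩ n a (y k) = lam • y k) ∧
    (∀ k p : Fin n, ((D hΩ)^[(p : ℕ)] (y k)).1 ⟨0, h0⟩ = if k = p then 1 else 0) ∧
    Matrix.det (Matrix.of fun k j => φ j (y k)) ≠ 0

/-! ### Generalities on `A(Ω)` -/

section general

variable {Ω : Set ℂ} (hΩ : IsOpen Ω)

lemma A_ext {f g : A Ω} (h : ∀ z (hz : z ∈ Ω), f.1 ⟨z, hz⟩ = g.1 ⟨z, hz⟩) : f = g := by
  apply Subtype.ext
  ext z
  exact h z.1 z.2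

lemma D_apply (f : A Ω) (z : Ω) : (D hΩ f).1 z = deriv (ext f.1) z := rfl

lemma diffAt (f : A Ω) {z : ℂ} (hz : z ∈ Ω) (hΩ : IsOpen Ω) :
    DifferentiableAt ℂ (ext f.1) z :=
  DifferentiableOn.differentiableAt f.2 (hΩ.mem_nhds hz)

lemma D_add (f g : A Ω) : D hΩ (f + g) = D hΩ f + D hΩ g := by
  apply A_ext
  intro z hz
  change deriv (ext (f.1 + g.1)) z = deriv (ext f.1) z + deriv (ext g.1) z
  rw [ext_add, deriv_add (diffAt f hz hΩ) (diffAt g hz hΩ)]

lemma D_smul (c : ℂ) (f : A Ω) : D hΩ (c • f) = c • D hΩ f := by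
  apply A_ext
  intro z hz
  change deriv (ext (c • f.1)) z = c • deriv (ext f.1) z
  rw [ext_smul, deriv_const_smul_field]

/-- Build an element of `A(Ω)` from a differentiable function. -/
noncomputable def ofFun (F : ℂ → ℂ) (hF : DifferentiableOn ℂ F Ω) : A Ω :=
  ⟨⟨fun z => F z, continuousOn_iff_continuous_domRestrict.mp hF.continuousOn⟩, by
    refine hF.congr ?_
    intro z hz
    rw [ext_of_mem _ hz]
    rfl⟩

lemma ext_ofFun (F : ℂ → ℂ) (hF : DifferentiableOn ℂ F Ω) {z : ℂ} (hz : z ∈ Ω) :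
    ext (ofFun F hF).1 z = F z := by
  rw [ext_of_mem _ hz]; rfl

lemma D_iter_apply (f : A Ω) (q : ℕ) : ∀ z : Ω,
    ((D hΩ)^[q] f).1 z = iteratedDeriv q (ext f.1) z := by
  induction q with
  | zero => intro z; simp only [Function.iterate_zero, id, iteratedDeriv_zero]
            rw [ext_of_mem _ z.2]
  | succ q ih =>
    intro z
    rw [Function.iterate_succ_apply', D_apply, iteratedDeriv_succ]
    apply Filter.EventuallyEq.deriv_eq
    filter_upwards [hΩ.mem_nhds z.2] with w hw
    rw [ext_of_mem _ hw, ih ⟨w, hw⟩]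

/-- The operator `D ∘ D`, as a function. -/
noncomputable def T (f : A Ω) : A Ω := D hΩ (D hΩ f)

lemma T_add (f g : A Ω) : T hΩ (f + g) = T hΩ f + T hΩ g := by
  unfold T; rw [D_add, D_add]

lemma T_smul (c : ℂ) (f : A Ω) : T hΩ (c • f) = c • T hΩ f := by
  unfold T; rw [D_smul, D_smul]

lemma T_iter (f : A Ω) (q : ℕ) : (T hΩ)^[q] f = (D hΩ)^[2 * q] f := by
  induction q generalizing f with
  | zero => rfl
  | succ q ih =>
    rw [Function.iterate_succ_apply, ih, show 2 * (q + 1) = 2 * q + 1 + 1 by ring,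
      Function.iterate_succ_apply, Function.iterate_succ_apply]
    rfl

lemma ell_two (f : A Ω) : ell hΩ 2 (fun _ => 0) f = T hΩ f := by
  apply A_ext
  intro z hz
  have h : ∀ g : A Ω, mulA (0 : A Ω) g = 0 := by
    intro g
    apply A_ext
    intro z hz
    change (0 : ℂ) * g.1 ⟨z, hz⟩ = 0
    ring
  simp only [ell, h, Finset.sum_const_zero, add_zero]
  rfl

lemma ell_two' : ell hΩ 2 (fun _ => 0) = T hΩ := funext (ell_two hΩ)

/-- The span of the first iterates is stable when the last iterate is in it. -/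
lemma iter_mem (f : A Ω) (lam : ℂ) (m : ℕ) :
    (fun g => T hΩ g - lam • g)^[m] f - (T hΩ)^[m] f ∈
      Submodule.span ℂ {g | ∃ j < m, (T hΩ)^[j] f = g} := by
  induction m with
  | zero => simp
  | succ m ih =>
    set W := Submodule.span ℂ {g | ∃ j < m, (T hΩ)^[j] f = g} with hW
    set W' := Submodule.span ℂ {g | ∃ j < m + 1, (T hΩ)^[j] f = g} with hW'
    have hle : W ≤ W' := Submodule.span_mono fun g ⟨j, hj, h⟩ => ⟨j, by omega, h⟩
    have hT : ∀ g ∈ W, T hΩ g ∈ W' := by
      intro g hg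
      induction hg using Submodule.span_induction with
      | mem x hx =>
        obtain ⟨j, hj, rfl⟩ := hx
        apply Submodule.subset_span
        exact ⟨j + 1, by omega, Function.iterate_succ_apply' _ _ _⟩
      | zero =>
        have : T hΩ (0 : A Ω) = 0 := by
          have := T_smul hΩ 0 (0 : A Ω)
          simpa using this
        rw [this]; exact W'.zero_mem
      | add x y _ _ hx hy => rw [T_add]; exact W'.add_mem hx hy
      | smul c x _ hx => rw [T_smul]; exact W'.smul_mem c hx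
    have hm : (T hΩ)^[m] f ∈ W' := Submodule.subset_span ⟨m, by omega, rfl⟩
    rw [Function.iterate_succ_apply', Function.iterate_succ_apply']
    set w := (fun g => T hΩ g - lam • g)^[m] f - (T hΩ)^[m] f with hw
    have hS : (fun g => T hΩ g - lam • g)^[m] f = (T hΩ)^[m] f + w := by
      rw [hw]; abel
    rw [hS, T_add, smul_add]
    have e : T hΩ ((T hΩ)^[m] f) + T hΩ w - (lam • (T hΩ)^[m] f + lam • w)
        - T hΩ ((T hΩ)^[m] f) = T hΩ w - lam • (T hΩ)^[m] f - lam • w := by abel
    rw [e]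
    exact W'.sub_mem (W'.sub_mem (hT w ih) (W'.smul_mem _ hm)) (W'.smul_mem _ (hle ih))

/-- A root vector lies in the domain of all powers. -/
lemma root_in_DInfty (φ : A Ω →L[ℂ] ℂ) (f : A Ω) (lam : ℂ) (m : ℕ)
    (hφ : ∀ j < m, φ ((T hΩ)^[j] f) = 0)
    (hf : (fun g => T hΩ g - lam • g)^[m] f = 0) (q : ℕ) :
    φ ((T hΩ)^[q] f) = 0 := by
  set W := Submodule.span ℂ {g | ∃ j < m, (T hΩ)^[j] f = g} with hW
  have hmW : (T hΩ)^[m] f ∈ W := by
    have := iter_mem hΩ f lam m
    rw [hf, zero_sub] at this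
    simpa using W.neg_mem this
  have hT : ∀ g ∈ W, T hΩ g ∈ W := by
    intro g hg
    induction hg using Submodule.span_induction with
    | mem x hx =>
      obtain ⟨j, hj, rfl⟩ := hx
      rcases Nat.lt_or_ge (j + 1) m with h | h
      · exact Submodule.subset_span ⟨j + 1, h, Function.iterate_succ_apply' _ _ _⟩
      · have : j + 1 = m := by omega
        rw [← Function.iterate_succ_apply' (T hΩ) j f, Nat.succ_eq_add_one, this]
        exact hmW
    | zero =>
      have : T hΩ (0 : A Ω) = 0 := by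
        have := T_smul hΩ 0 (0 : A Ω)
        simpa using this
      rw [this]; exact W.zero_mem
    | add x y _ _ hx hy => rw [T_add]; exact W.add_mem hx hy
    | smul c x _ hx => rw [T_smul]; exact W.smul_mem c hx
  have hq : (T hΩ)^[q] f ∈ W := by
    induction q with
    | zero =>
      rcases Nat.eq_zero_or_pos m with h | h
      · subst h
        exact hmW
      · exact Submodule.subset_span ⟨0, h, rfl⟩
    | succ q ih => rw [Function.iterate_succ_apply']; exact hT _ ih
  have hker : ∀ g ∈ W, φ g = 0 := by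
    intro g hg
    induction hg using Submodule.span_induction with
    | mem x hx => obtain ⟨j, hj, rfl⟩ := hx; exact hφ j hj
    | zero => exact map_zero φ
    | add x y _ _ hx hy => rw [map_add, hx, hy, add_zero]
    | smul c x _ hx => rw [map_smul, hx, smul_zero]
  exact hker _ hq

end general

/-! ### Solutions of constant coefficient equations are restrictions of entire functions -/

/-- `f` is the restriction of an entire function. -/
def IsEntire {Ω : Set ℂ} (f : A Ω) : Prop :=
  ∃ G : ℂ → ℂ, Differentiable ℂ G ∧ ∀ z ∈ Ω, ext f.1 z = G z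

lemma isEntire_zero {Ω : Set ℂ} : IsEntire (0 : A Ω) :=
  ⟨0, differentiable_const 0, fun z hz => by rw [ext_of_mem _ hz]; rfl⟩

/-- First order step: if `g' - μ g` is entire then so is `g`. -/
lemma entire_step {Ω : Set ℂ} (hΩ : IsOpen Ω) (hc : Convex ℝ Ω) (h0 : (0 : ℂ) ∈ Ω) (μ : ℂ)
    (g : A Ω) (h : IsEntire (D hΩ g - μ • g)) : IsEntire g := by
  obtain ⟨H, hH, hHe⟩ := h
  have hE : Differentiable ℂ fun z => Complex.exp (-(μ * z)) * H z := by fun_prop
  obtain ⟨P, hP⟩ := hE.isExactOn_univ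
  have hPd : Differentiable ℂ P := fun z => (hP z (Set.mem_univ z)).differentiableAt
  refine ⟨fun z => Complex.exp (μ * z) * (P z - P 0 + ext g.1 0), by fun_prop, ?_⟩
  have hval : ∀ z ∈ Ω, deriv (ext g.1) z - μ * ext g.1 z = H z := by
    intro z hz
    rw [← hHe z hz, ext_of_mem _ hz, ext_of_mem _ hz]
    rfl
  have hd : ∀ z ∈ Ω, HasDerivAt (fun z => Complex.exp (-(μ * z)) * ext g.1 z - P z) 0 z := by
    intro z hz
    have h1 : HasDerivAt (fun z => Complex.exp (-(μ * z)))
        (Complex.exp (-(μ * z)) * (-μ)) z := by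
      have := ((hasDerivAt_id z).const_mul μ).neg.cexp
      simpa using this
    have h2 : HasDerivAt (ext g.1) (deriv (ext g.1) z) z := (diffAt g hz hΩ).hasDerivAt
    have h3 := (h1.fun_mul h2).fun_sub (hP z (Set.mem_univ z))
    refine HasDerivAt.congr_deriv h3 ?_
    have hv := hval z hz
    beta_reduce
    linear_combination (Complex.exp (-(μ * z))) * hv
  have hconst : ∀ z ∈ Ω, Complex.exp (-(μ * z)) * ext g.1 z - P z =
      Complex.exp (-(μ * 0)) * ext g.1 0 - P 0 := by
    intro z hz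
    exact hΩ.is_const_of_deriv_eq_zero hc.isPreconnected
      (fun w hw => (hd w hw).differentiableAt.differentiableWithinAt)
      (fun w hw => (hd w hw).deriv) hz h0
  intro z hz
  have h := hconst z hz
  have he : Complex.exp (μ * z) * Complex.exp (-(μ * z)) = 1 := by
    rw [← Complex.exp_add]; simp
  have h0' : Complex.exp (-(μ * 0)) = 1 := by simp
  rw [h0', one_mul] at h
  calc ext g.1 z = (Complex.exp (μ * z) * Complex.exp (-(μ * z))) * ext g.1 z := by
        rw [he, one_mul]
    _ = Complex.exp (μ * z) * (Complex.exp (-(μ * z)) * ext g.1 z) := by ring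
    _ = Complex.exp (μ * z) * (P z - P 0 + ext g.1 0) := by
        rw [show Complex.exp (-(μ * z)) * ext g.1 z = P z - P 0 + ext g.1 0 by
          linear_combination h]

lemma entire_of_iter {Ω : Set ℂ} (hΩ : IsOpen Ω) (hc : Convex ℝ Ω) (h0 : (0 : ℂ) ∈ Ω)
    (lam : ℂ) (m : ℕ) : ∀ f : A Ω, (fun g => T hΩ g - lam • g)^[m] f = 0 → IsEntire f := by
  induction m with
  | zero => intro f hf; rw [Function.iterate_zero, id] at hf; rw [hf]; exact isEntire_zero
  | succ m ih =>
    intro f hf
    rw [Function.iterate_succ_apply] at hf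
    have h1 := ih _ hf
    obtain ⟨μ, hμ⟩ : ∃ μ : ℂ, μ * μ = lam := by
      obtain ⟨μ, hμ⟩ := IsAlgClosed.exists_eq_mul_self lam
      exact ⟨μ, hμ.symm⟩
    have e : D hΩ (D hΩ f - (-μ) • f) - μ • (D hΩ f - (-μ) • f) = T hΩ f - lam • f := by
      have h2 : D hΩ f - (-μ) • f = D hΩ f + μ • f := by rw [neg_smul, sub_neg_eq_add]
      rw [h2, D_add, D_smul, smul_add, smul_smul, hμ]
      unfold T
      abel
    have h3 : IsEntire (D hΩ f - (-μ) • f) := by
      apply entire_step hΩ hc h0 μ
      rw [e]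
      exact h1
    exact entire_step hΩ hc h0 (-μ) f h3

/-! ### Odd symmetry about a point and iterated derivatives of even order -/

lemma iteratedDeriv_of_odd {F : ℂ → ℂ} {α : ℂ} (h : ∀ᶠ s in 𝓝 α, F (2 * α - s) = - F s)
    (q : ℕ) : iteratedDeriv (2 * q) F α = 0 := by
  have h1 : (fun s => F (2 * α - s)) =ᶠ[𝓝 α] fun s => - F s := h
  have h2 := h1.iteratedDeriv_eq (2 * q)
  rw [iteratedDeriv_comp_const_sub, iteratedDeriv_fun_neg] at h2
  simp only [pow_mul, even_two, Even.neg_pow, one_pow, one_smul] at h2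
  have e : 2 * α - α = α := by ring
  rw [e] at h2
  have : iteratedDeriv (2 * q) F α + iteratedDeriv (2 * q) F α = 0 := by
    nth_rewrite 1 [h2]; ring
  have h4 : (2 : ℂ) * iteratedDeriv (2 * q) F α = 0 := by linear_combination this
  exact (mul_eq_zero.mp h4).resolve_left two_ne_zero

lemma odd_of_iteratedDeriv {G : ℂ → ℂ} (hG : Differentiable ℂ G) {α : ℂ}
    (h : ∀ q, iteratedDeriv (2 * q) G α = 0) (z : ℂ) : G (2 * α - z) = - G z := by
  set K : ℂ → ℂ := fun z => G z + G (2 * α - z) with hK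
  have hKd : Differentiable ℂ K := by
    have : Differentiable ℂ fun z => G (2 * α - z) := hG.comp (by fun_prop)
    exact hG.add this
  have hKi : ∀ n, iteratedDeriv n K α = 0 := by
    intro n
    have hG1 : ContDiff ℂ n G := hG.contDiff
    have hG2 : ContDiff ℂ n fun z => G (2 * α - z) := by
      have : Differentiable ℂ fun z => G (2 * α - z) := hG.comp (by fun_prop)
      exact this.contDiff
    have h1 : iteratedDeriv n K α = iteratedDeriv n G α
        + iteratedDeriv n (fun z => G (2 * α - z)) α :=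
      iteratedDeriv_fun_add hG1.contDiffAt hG2.contDiffAt
    rw [h1, iteratedDeriv_comp_const_sub]
    have e : 2 * α - α = α := by ring
    simp only [e]
    rcases Nat.even_or_odd' n with ⟨q, hq | hq⟩
    · rw [hq, h q]; simp
    · have : (-1 : ℂ) ^ n = -1 := by rw [hq, pow_succ, pow_mul]; simp
      rw [this]; simp
  have hz := Complex.taylorSeries_eq_of_entire hKd α z
  simp only [hKi, smul_zero, tsum_zero] at hz
  have : G z + G (2 * α - z) = 0 := hz.symm
  linear_combination this

/-! ### The domain, the two points and the special function -/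

/-- The convex domain. -/
def Om : Set ℂ := {s : ℂ | |s.im| < Real.pi + s.re ∧ -2 < s.re}

lemma Om_open : IsOpen Om := by
  apply IsOpen.and
  · exact isOpen_lt (by fun_prop) (by fun_prop)
  · exact isOpen_lt (by fun_prop) (by fun_prop)

lemma Om_convex : Convex ℝ Om := by
  intro x hx y hy a b ha hb hab
  obtain ⟨hx1, hx2⟩ := hx
  obtain ⟨hy1, hy2⟩ := hy
  constructor
  · simp only [Complex.add_im, Complex.add_re, Complex.real_smul, Complex.mul_im, Complex.mul_re,
      Complex.ofReal_re, Complex.ofReal_im, zero_mul, add_zero, sub_zero]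
    have h1 : |a * x.im + b * y.im| ≤ a * |x.im| + b * |y.im| := by
      calc _ ≤ |a * x.im| + |b * y.im| := abs_add_le _ _
        _ = _ := by rw [abs_mul, abs_mul, abs_of_nonneg ha, abs_of_nonneg hb]
    have h2 : a * |x.im| + b * |y.im| < a * (Real.pi + x.re) + b * (Real.pi + y.re) := by
      rcases ha.eq_or_lt with h | h
      · have hb1 : b = 1 := by linarith
        rw [← h, hb1]; linarith
      · have := mul_lt_mul_of_pos_left hx1 h
        have := mul_le_mul_of_nonneg_left hy1.le hb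
        linarith
    calc _ ≤ _ := h1
      _ < _ := h2
      _ = _ := by linear_combination Real.pi * hab
  · simp only [Complex.add_re, Complex.real_smul, Complex.mul_re, Complex.ofReal_re,
      Complex.ofReal_im, zero_mul, sub_zero]
    rcases ha.eq_or_lt with h | h
    · have hb1 : b = 1 := by linarith
      rw [← h, hb1]; linarith
    · have := mul_lt_mul_of_pos_left hx2 h
      have := mul_le_mul_of_nonneg_left hy2.le hb
      nlinarith

lemma zero_mem : (0 : ℂ) ∈ Om := by
  constructor <;> simp [Real.pi_pos]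

/-- The first point. -/
noncomputable def pa : ℂ := -1 - (Real.pi / 2 : ℝ) * Complex.I
/-- The second point. -/
noncomputable def pb : ℂ := -1 + (Real.pi / 2 : ℝ) * Complex.I

lemma pa_re : pa.re = -1 := by simp [pa]
lemma pb_re : pb.re = -1 := by simp [pb]
lemma pa_im : pa.im = -(Real.pi / 2) := by simp [pa]
lemma pb_im : pb.im = Real.pi / 2 := by simp [pb]

lemma pa_mem : pa ∈ Om := by
  constructor
  · rw [pa_im, pa_re, abs_neg, abs_of_pos (by positivity)]
    linarith [Real.pi_gt_three]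
  · rw [pa_re]; norm_num

lemma pb_mem : pb ∈ Om := by
  constructor
  · rw [pb_im, pb_re, abs_of_pos (by positivity)]
    linarith [Real.pi_gt_three]
  · rw [pb_re]; norm_num

/-- The point where periodicity fails. -/
noncomputable def pw : ℂ := 1 + Real.pi * Complex.I
/-- Its translate by `-2 π i`. -/
noncomputable def pw' : ℂ := 1 - Real.pi * Complex.I

lemma pw_re : pw.re = 1 := by simp [pw]
lemma pw_im : pw.im = Real.pi := by simp [pw]
lemma pw'_re : pw'.re = 1 := by simp [pw']
lemma pw'_im : pw'.im = -Real.pi := by simp [pw']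

lemma pw_mem : pw ∈ Om := by
  constructor
  · rw [pw_im, pw_re, abs_of_pos Real.pi_pos]; linarith
  · rw [pw_re]; norm_num

lemma pw'_mem : pw' ∈ Om := by
  constructor
  · rw [pw'_im, pw'_re, abs_neg, abs_of_pos Real.pi_pos]; linarith
  · rw [pw'_re]; norm_num

/-- The branch of `log (1 + e^s)` on the domain. -/
noncomputable def br (s : ℂ) : ℂ :=
  if 0 < s.re then s + Complex.log (1 + Complex.exp (-s)) else Complex.log (1 + Complex.exp s)

/-- The special function. -/
noncomputable def f0 (s : ℂ) : ℂ := br s - Complex.log (1 - Complex.exp (-2 - s))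

lemma slit1 {s : ℂ} (h : |s.im| < Real.pi) : 1 + Complex.exp s ∈ Complex.slitPlane := by
  rw [Complex.mem_slitPlane_iff]
  rw [abs_lt] at h
  by_cases hs : s.im = 0
  · left
    simp only [Complex.add_re, Complex.one_re, Complex.exp_re, hs, Real.cos_zero, mul_one]
    positivity
  · right
    simp only [Complex.add_im, Complex.one_im, Complex.exp_im, zero_add]
    have : Real.sin s.im ≠ 0 := by
      rcases lt_or_gt_of_ne hs with h' | h'
      · exact (Real.sin_neg_of_neg_of_neg_pi_lt h' h.1).ne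
      · exact (Real.sin_pos_of_pos_of_lt_pi h' h.2).ne'
    exact mul_ne_zero (Real.exp_pos _).ne' this

lemma slit2 {s : ℂ} (h : s.re < 0) : 0 < (1 + Complex.exp s).re := by
  have h1 : ‖Complex.exp s‖ < 1 := by
    rw [Complex.norm_exp]; exact Real.exp_lt_one_iff.mpr h
  have h2 := Complex.abs_re_le_norm (Complex.exp s)
  have h3 := (abs_le.mp h2).1
  simp only [Complex.add_re, Complex.one_re]
  linarith

lemma agree {s : ℂ} (h1 : |s.im| < Real.pi) (h2 : 0 < s.re) :
    s + Complex.log (1 + Complex.exp (-s)) = Complex.log (1 + Complex.exp s) := by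
  have hre : 0 < (1 + Complex.exp (-s)).re := slit2 (by simpa using h2)
  have hne : 1 + Complex.exp (-s) ≠ 0 := fun h => by rw [h] at hre; simp at hre
  have hexp : Complex.exp (s + Complex.log (1 + Complex.exp (-s))) = 1 + Complex.exp s := by
    rw [Complex.exp_add, Complex.exp_log hne, mul_add, mul_one, ← Complex.exp_add, add_neg_cancel,
      Complex.exp_zero, add_comm]
  rw [← hexp, Complex.log_exp]
  · rw [Complex.add_im, Complex.log_im]
    rw [abs_lt] at h1
    have harg := Complex.abs_arg_lt_pi_div_two_iff.mpr (Or.inl hre)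
    rw [abs_lt] at harg
    rcases le_total 0 s.im with h | h
    · linarith [Real.pi_pos]
    · have : 0 ≤ (1 + Complex.exp (-s)).im := by
        simp only [Complex.add_im, Complex.one_im, Complex.exp_im, zero_add, Complex.neg_im]
        apply mul_nonneg (Real.exp_pos _).le
        exact Real.sin_nonneg_of_nonneg_of_le_pi (by linarith) (by linarith)
      have := Complex.arg_nonneg_iff.mpr this
      linarith
  · rw [Complex.add_im, Complex.log_im]
    rw [abs_lt] at h1
    have harg := Complex.abs_arg_lt_pi_div_two_iff.mpr (Or.inl hre)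
    rw [abs_lt] at harg
    rcases le_total 0 s.im with h | h
    · have him : (1 + Complex.exp (-s)).im ≤ 0 := by
        simp only [Complex.add_im, Complex.one_im, Complex.exp_im, zero_add, Complex.neg_im,
          Real.sin_neg]
        have := Real.sin_nonneg_of_nonneg_of_le_pi h h1.2.le
        have h5 := (Real.exp_pos (-s).re).le
        nlinarith
      rcases him.eq_or_lt with h' | h'
      · have : Complex.arg (1 + Complex.exp (-s)) = 0 :=
          Complex.arg_eq_zero_iff.mpr ⟨hre.le, h'⟩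
        linarith
      · have := Complex.arg_neg_iff.mpr h'
        linarith
    · linarith [Real.pi_pos]

lemma br_diff {s : ℂ} (h : |s.im| < Real.pi ∨ 0 < s.re) : DifferentiableAt ℂ br s := by
  rcases h with h | h
  · have h1 : DifferentiableAt ℂ (fun s => Complex.log (1 + Complex.exp s)) s :=
      (by fun_prop : DifferentiableAt ℂ (fun s => 1 + Complex.exp s) s).clog (slit1 h)
    refine h1.congr_of_eventuallyEq ?_
    have hopen : IsOpen {s : ℂ | |s.im| < Real.pi} := isOpen_lt (by fun_prop) (by fun_prop)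
    filter_upwards [hopen.mem_nhds h] with w hw
    unfold br
    split_ifs with hre
    · exact agree hw hre
    · rfl
  · have h1 : DifferentiableAt ℂ (fun s => s + Complex.log (1 + Complex.exp (-s))) s := by
      apply DifferentiableAt.add differentiableAt_id
      apply DifferentiableAt.clog (by fun_prop)
      exact Complex.mem_slitPlane_iff.mpr (Or.inl (slit2 (by simpa using h)))
    refine h1.congr_of_eventuallyEq ?_
    have hopen : IsOpen {s : ℂ | 0 < s.re} := isOpen_lt (by fun_prop) (by fun_prop)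
    filter_upwards [hopen.mem_nhds h] with w hw
    unfold br
    rw [if_pos hw]

lemma f0_diff : DifferentiableOn ℂ f0 Om := by
  intro s hs
  obtain ⟨h1, h2⟩ := hs
  apply DifferentiableAt.differentiableWithinAt
  unfold f0
  apply DifferentiableAt.sub
  · apply br_diff
    rcases lt_or_ge 0 s.re with h | h
    · exact Or.inr h
    · left; linarith
  · apply DifferentiableAt.clog (by fun_prop)
    apply Complex.mem_slitPlane_iff.mpr
    left
    have h1 : ‖Complex.exp (-2 - s)‖ < 1 := by
      rw [Complex.norm_exp]; apply Real.exp_lt_one_iff.mpr; simp; linarith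
    have h2 := Complex.abs_re_le_norm (Complex.exp (-2 - s))
    have h3 := (abs_le.mp h2).2
    simp only [Complex.sub_re, Complex.one_re]
    linarith

lemma exp_half (e : ℂ) : Complex.exp (e - Real.pi * Complex.I) = - Complex.exp e := by
  rw [Complex.exp_sub, Complex.exp_pi_mul_I]; ring
lemma exp_half' (e : ℂ) : Complex.exp (e + Real.pi * Complex.I) = - Complex.exp e := by
  rw [Complex.exp_add, Complex.exp_pi_mul_I]; ring

lemma f0_odd_a {s : ℂ} (h1 : -2 < s.re) (h2 : s.re < 0) : f0 (2 * pa - s) = - f0 s := by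
  have e1 : 2 * pa - s = (-2 - s) - Real.pi * Complex.I := by unfold pa; push_cast; ring
  have e2 : -2 - (2 * pa - s) = s + Real.pi * Complex.I := by unfold pa; push_cast; ring
  have hr : ¬ 0 < (2 * pa - s).re := by rw [e1]; simp; linarith
  unfold f0 br
  rw [if_neg hr, if_neg (not_lt.mpr h2.le), e2, e1, exp_half, exp_half']
  ring_nf

lemma f0_odd_b {s : ℂ} (h1 : -2 < s.re) (h2 : s.re < 0) : f0 (2 * pb - s) = - f0 s := by
  have e1 : 2 * pb - s = (-2 - s) + Real.pi * Complex.I := by unfold pb; push_cast; ring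
  have e2 : -2 - (2 * pb - s) = s - Real.pi * Complex.I := by unfold pb; push_cast; ring
  have hr : ¬ 0 < (2 * pb - s).re := by rw [e1]; simp; linarith
  unfold f0 br
  rw [if_neg hr, if_neg (not_lt.mpr h2.le), e2, e1, exp_half, exp_half']
  ring_nf

lemma f0_jump : f0 pw - f0 pw' = 2 * Real.pi * Complex.I := by
  have e1 : Complex.exp (-pw) = Complex.exp (-pw') := by
    have : -pw = -pw' - Real.pi * Complex.I - Real.pi * Complex.I := by unfold pw pw'; ring
    rw [this, exp_half, exp_half]; ring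
  have e2 : Complex.exp (-2 - pw) = Complex.exp (-2 - pw') := by
    have : -2 - pw = -2 - pw' - Real.pi * Complex.I - Real.pi * Complex.I := by
      unfold pw pw'; ring
    rw [this, exp_half, exp_half]; ring
  unfold f0 br
  rw [if_pos (by rw [pw_re]; norm_num), if_pos (by rw [pw'_re]; norm_num), e1, e2]
  unfold pw pw'
  ring

/-! ### The counterexample -/

/-- Evaluation at a point, as a continuous linear functional on `A(Ω)`. -/
noncomputable def evalAt {Ω : Set ℂ} (z : Ω) : A Ω →L[ℂ] ℂ where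
  toFun f := f.1 z
  map_add' _ _ := rfl
  map_smul' _ _ := rfl
  cont := (continuous_eval_const z).comp continuous_subtype_val

lemma evalAt_apply {Ω : Set ℂ} (z : Ω) (f : A Ω) : evalAt z f = f.1 z := rfl

/-- The two functionals. -/
noncomputable def phi : Fin 2 → (A Om →L[ℂ] ℂ) := ![evalAt ⟨pa, pa_mem⟩, evalAt ⟨pb, pb_mem⟩]

lemma phi_zero : phi 0 = evalAt ⟨pa, pa_mem⟩ := rfl
lemma phi_one : phi 1 = evalAt ⟨pb, pb_mem⟩ := rfl

/-- Every root vector takes equal values at the two points `pw`, `pw'`. -/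
lemma root_periodic (f : A Om) (hf : IsRootVector Om_open 2 (fun _ => 0) phi f) :
    f.1 ⟨pw, pw_mem⟩ = f.1 ⟨pw', pw'_mem⟩ := by
  obtain ⟨-, lam, m, -, hdom, hker⟩ := hf
  rw [ell_two'] at hdom hker
  obtain ⟨G, hG, hGe⟩ := entire_of_iter Om_open Om_convex zero_mem lam m f hker
  have key : ∀ (p : ℂ) (hp : p ∈ Om), (∀ q, evalAt ⟨p, hp⟩ ((T Om_open)^[q] f) = 0) →
      ∀ z, G (2 * p - z) = - G z := by
    intro p hp hq
    apply odd_of_iteratedDeriv hG
    intro q
    have h1 := hq q
    rw [T_iter, evalAt_apply, D_iter_apply] at h1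
    rw [← h1]
    apply Filter.EventuallyEq.iteratedDeriv_eq
    filter_upwards [Om_open.mem_nhds hp] with w hw
    exact (hGe w hw).symm
  have ha := key pa pa_mem fun q =>
    root_in_DInfty Om_open (evalAt ⟨pa, pa_mem⟩) f lam m (fun j hj => hdom j hj 0) hker q
  have hb := key pb pb_mem fun q =>
    root_in_DInfty Om_open (evalAt ⟨pb, pb_mem⟩) f lam m (fun j hj => hdom j hj 1) hker q
  have e1 := ha pw'
  have e2 := hb (2 * pa - pw')
  have e3 : 2 * pb - (2 * pa - pw') = pw := by unfold pa pb pw pw'; push_cast; ring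
  rw [e3, e1, neg_neg] at e2
  have h1 := hGe pw pw_mem
  have h2 := hGe pw' pw'_mem
  rw [ext_of_mem _ pw_mem] at h1
  rw [ext_of_mem _ pw'_mem] at h2
  rw [h1, h2, e2]

/-- The special function, as an element of `A(Ω)`. -/
noncomputable def F0 : A Om := ofFun f0 f0_diff

lemma F0_mem : F0 ∈ DInfty Om_open 2 (fun _ => 0) phi := by
  intro q k
  rw [ell_two', T_iter]
  have hnear : ∀ p : ℂ, p.re = -1 → ∀ᶠ s in 𝓝 p, -2 < s.re ∧ s.re < 0 := by
    intro p hp
    have hopen : IsOpen {s : ℂ | -2 < s.re ∧ s.re < 0} := by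
      apply IsOpen.and
      · exact isOpen_lt (by fun_prop) (by fun_prop)
      · exact isOpen_lt (by fun_prop) (by fun_prop)
    exact hopen.mem_nhds ⟨by rw [hp]; norm_num, by rw [hp]; norm_num⟩
  have hmem : ∀ (p : ℂ), p ∈ Om → ∀ᶠ s in 𝓝 p, s ∈ Om ∧ 2 * p - s ∈ Om := by
    intro p hp
    have h2 : Tendsto (fun s => 2 * p - s) (𝓝 p) (𝓝 p) := by
      have : Tendsto (fun s => 2 * p - s) (𝓝 p) (𝓝 (2 * p - p)) :=
        (tendsto_const_nhds.sub tendsto_id)
      have e : 2 * p - p = p := by ring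
      rwa [e] at this
    have h3 : ∀ᶠ s in 𝓝 p, s ∈ Om := Om_open.mem_nhds hp
    have h4 : ∀ᶠ s in 𝓝 p, 2 * p - s ∈ Om := h2 (Om_open.mem_nhds hp)
    exact h3.and h4
  have hodd : ∀ (p : ℂ) (hp : p ∈ Om) (hre : p.re = -1)
      (ho : ∀ s : ℂ, -2 < s.re → s.re < 0 → f0 (2 * p - s) = - f0 s),
      evalAt ⟨p, hp⟩ ((D Om_open)^[2 * q] F0) = 0 := by
    intro p hp hre ho
    rw [evalAt_apply, D_iter_apply]
    apply iteratedDeriv_of_odd
    filter_upwards [hnear p hre, hmem p hp] with s h1 h2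
    have e1 : ext F0.1 s = f0 s := ext_ofFun f0 f0_diff h2.1
    have e2 : ext F0.1 (2 * p - s) = f0 (2 * p - s) := ext_ofFun f0 f0_diff h2.2
    rw [e1, e2, ho s h1.1 h1.2]
  fin_cases k
  · exact hodd pa pa_mem pa_re fun s h1 h2 => f0_odd_a h1 h2
  · exact hodd pb pb_mem pb_re fun s h1 h2 => f0_odd_b h1 h2

lemma F0_not_mem : F0 ∉ Cl Om_open 2 (fun _ => 0) phi := by
  intro h
  have hcl : IsClosed {f : A Om | evalAt ⟨pw, pw_mem⟩ f = evalAt ⟨pw', pw'_mem⟩ f} :=
    isClosed_eq (evalAt ⟨pw, pw_mem⟩).continuous (evalAt ⟨pw', pw'_mem⟩).continuous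
  have hsub : (Submodule.span ℂ {f : A Om | IsRootVector Om_open 2 (fun _ => 0) phi f} :
      Set (A Om)) ⊆ {f : A Om | evalAt ⟨pw, pw_mem⟩ f = evalAt ⟨pw', pw'_mem⟩ f} := by
    intro f hf
    induction hf using Submodule.span_induction with
    | mem x hx => exact root_periodic x hx
    | zero => change evalAt _ (0 : A Om) = evalAt _ (0 : A Om); rw [map_zero, map_zero]
    | add x y _ _ hx hy =>
      change evalAt _ (x + y) = evalAt _ (x + y)
      rw [map_add, map_add]
      exact congrArg₂ (· + ·) hx hy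
    | smul c x _ hx =>
      change evalAt _ (c • x) = evalAt _ (c • x)
      rw [map_smul, map_smul]
      exact congrArg (c • ·) hx
  have h1 := closure_minimal hsub hcl h
  have h2 : f0 pw = f0 pw' := h1
  have h3 := f0_jump
  rw [h2, sub_self] at h3
  have : (2 * Real.pi * Complex.I : ℂ) ≠ 0 := by
    simp [Real.pi_ne_zero]
  exact this h3.symm

lemma delta_ne : DeltaNeZero Om_open zero_mem 2 (fun _ => 0) phi := by
  have h1 : DifferentiableOn ℂ (fun _ : ℂ => (1 : ℂ)) Om := differentiableOn_const 1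
  have h2 : DifferentiableOn ℂ (fun z : ℂ => z) Om := differentiableOn_id
  have hD : ∀ (F F' : ℂ → ℂ) (hF : DifferentiableOn ℂ F Om) (hF' : DifferentiableOn ℂ F' Om),
      (∀ z ∈ Om, deriv F z = F' z) → D Om_open (ofFun F hF) = ofFun F' hF' := by
    intro F F' hF hF' hd
    apply A_ext
    intro z hz
    change deriv (ext (ofFun F hF).1) z = F' z
    rw [← hd z hz]
    apply Filter.EventuallyEq.deriv_eq
    filter_upwards [Om_open.mem_nhds hz] with w hw
    exact ext_ofFun F hF hw
  have h3 : DifferentiableOn ℂ (fun _ : ℂ => (0 : ℂ)) Om := differentiableOn_const 0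
  have hzero : ofFun (fun _ : ℂ => (0 : ℂ)) h3 = (0 : A Om) := rfl
  have d1 : D Om_open (ofFun _ h1) = 0 := by
    rw [hD _ _ h1 h3 (fun z _ => by simp), hzero]
  have d0 : D Om_open (0 : A Om) = 0 := by
    nth_rewrite 1 [← hzero]
    rw [hD _ _ h3 h3 (fun z _ => by simp), hzero]
  have d2 : D Om_open (ofFun _ h2) = ofFun _ h1 := hD _ _ h2 h1 (fun z _ => by simp)
  refine ⟨0, ![ofFun _ h1, ofFun _ h2], ?_, ?_, ?_⟩
  · intro k
    rw [ell_two, zero_smul]
    fin_cases k
    · change D Om_open (D Om_open (ofFun _ h1)) = 0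
      rw [d1, d0]
    · change D Om_open (D Om_open (ofFun _ h2)) = 0
      rw [d2, d1]
  · intro k p
    fin_cases k <;> fin_cases p
    · change (1 : ℂ) = if (0 : Fin 2) = 0 then 1 else 0
      simp
    · change (D Om_open (ofFun _ h1)).1 ⟨0, zero_mem⟩ = if (0 : Fin 2) = 1 then 1 else 0
      rw [d1]
      simp only [Fin.isValue, zero_ne_one, if_false]
      rfl
    · change (0 : ℂ) = if (1 : Fin 2) = 0 then 1 else 0
      simp
    · change (D Om_open (ofFun _ h2)).1 ⟨0, zero_mem⟩ = if (1 : Fin 2) = 1 then 1 else 0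
      rw [d2]
      simp only [if_true]
      rfl
  · rw [Matrix.det_fin_two]
    change (1 : ℂ) * pb - 1 * pa ≠ 0
    intro h
    have : (1 : ℂ) * pb - 1 * pa = Real.pi * Complex.I := by unfold pa pb; push_cast; ring
    rw [this] at h
    simp [Real.pi_ne_zero] at h

/-- **The closure conjecture fails.** There are a convex domain `Ω ∋ 0`, an operator `ℓ` and
functionals `φ_1, …, φ_n` with `Δ ≢ 0` such that the closed span of the root vectors is not the
common domain of the powers. -/
theorem result :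
    ∃ (Ω : Set ℂ) (hΩ : IsOpen Ω) (h0 : (0 : ℂ) ∈ Ω), Convex ℝ Ω ∧
      ∃ (n : ℕ) (a : Fin (n - 1) → A Ω) (φ : Fin n → (A Ω →L[ℂ] ℂ)),
        1 ≤ n ∧ DeltaNeZero hΩ h0 n a φ ∧ Cl hΩ n a φ ≠ DInfty hΩ n a φ := by
  refine ⟨Om, Om_open, zero_mem, Om_convex, 2, fun _ => 0, phi, by norm_num, delta_ne, ?_⟩
  intro h
  exact F0_not_mem (h ▸ F0_mem)

end Pool.Agent.Results.MP_f3b8e9_an.ConvexClosureFails
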